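import Mathlib

/-!
# Non-separable compact spaces supporting a measure have fibres of large Cantor-Bendixson height

Let `K` be a compact space that supports a Radon probability measure and let `f` be a continuous
map of `K` to the Cantor space (or to any second countable Hausdorff space).  If the fibres of `f`
are scattered and their Cantor-Bendixson heights are bounded by one countable ordinal (for
instance, if the fibres are finite, or convergent sequences, or of finite height), then `K` is
separable, in ZFC.  More precisely, if `K` is not separable then for every countable ordinal `γ`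
almost every fibre over some fixed nonempty open set has a nonempty `γ`-th derivative.

Proof.  Removing a separable closed set of maximal measure one may assume that all separable closed
sets are null.  By induction on `γ`: every closed set `L` contains, up to an arbitrarily small
loss of measure, a closed set `N` and a separable closed set `C` (not necessarily inside `N`) such
that `C` meets every fibre through `N` in a set with a nonempty `γ`-th derivative.  For the
induction step run through the smaller ordinals, each infinitely often, and remove the null set `C`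
each time: the pieces of `C` obtained in this way are disjoint, so they accumulate in every fibre.
-/

namespace Pool.Agent.Results.MP_605315_lc.FibreHeights

open MeasureTheory Set Filter Topology
open scoped ENNReal

/-- The `o`-th Cantor-Bendixson derivative of the subset `A` of a topological space: the points of
`A` that are accumulation points of each of the earlier derivatives. -/
def CB {X : Type*} [TopologicalSpace X] (A : Set X) (o : Ordinal.{0}) : Set X :=
  {x | x ∈ A ∧ ∀ p, ∀ _h : p < o, AccPt x (𝓟 (CB A p))}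
termination_by o

section

variable {X : Type*} [TopologicalSpace X]

theorem mem_CB {A : Set X} {o : Ordinal.{0}} {x : X} :
    x ∈ CB A o ↔ x ∈ A ∧ ∀ p < o, AccPt x (𝓟 (CB A p)) := by
  rw [CB]
  rfl

theorem CB_mono {A B : Set X} (h : A ⊆ B) (o : Ordinal.{0}) : CB A o ⊆ CB B o := by
  induction o using WellFoundedLT.induction with
  | ind o ih =>
    intro x hx
    rw [mem_CB] at hx ⊢
    exact ⟨h hx.1, fun p hp => (hx.2 p hp).mono (principal_mono.2 (ih p hp))⟩

theorem CB_anti {A : Set X} {o p : Ordinal.{0}} (h : p ≤ o) : CB A o ⊆ CB A p := by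
  intro x hx
  rw [mem_CB] at hx ⊢
  exact ⟨hx.1, fun q hq => hx.2 q (hq.trans_le h)⟩

end

section

variable {K : Type*} [TopologicalSpace K] [CompactSpace K] {M : Type*} [TopologicalSpace M]
  [SecondCountableTopology M] [T2Space M]

/-- Every closed set contains a separable closed set with the same image. -/
theorem base {f : K → M} (hf : Continuous f) {L : Set K} (hL : IsClosed L) :
    ∃ D : Set K, D.Countable ∧ closure D ⊆ L ∧ f '' L ⊆ f '' closure D := by
  obtain ⟨c, hc, hcd⟩ := TopologicalSpace.exists_countable_dense (↥(f '' L))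
  have h1 : ∀ y : ↥(f '' L), ∃ x ∈ L, f x = y := fun y => y.2
  choose g hgL hg using h1
  refine ⟨g '' c, hc.image g, closure_minimal ?_ hL, ?_⟩
  · rintro _ ⟨y, -, rfl⟩
    exact hgL y
  · rw [← hf.isClosedMap.closure_image_eq_of_continuous hf]
    rw [Subtype.dense_iff] at hcd
    refine hcd.trans (closure_mono ?_)
    rintro _ ⟨y, hy, rfl⟩
    exact ⟨g y, ⟨y, hy, rfl⟩, hg y⟩

variable [T2Space K] [MeasurableSpace K] [BorelSpace K]

theorem key {ν : Measure K} [IsFiniteMeasure ν] [ν.WeaklyRegular]
    (hν : ∀ D : Set K, D.Countable → ν (closure D) = 0) {f : K → M} (hf : Continuous f)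
    (γ : Ordinal.{0}) :
    γ.card ≤ Cardinal.aleph0 → ∀ L : Set K, IsClosed L → ∀ ε : ℝ≥0∞, ε ≠ 0 →
      ∃ N : Set K, IsClosed N ∧ N ⊆ L ∧ ν (L \ N) ≤ ε ∧ ∃ D : Set K, D.Countable ∧
        closure D ⊆ L ∧ ∀ t ∈ f '' N, (CB (closure D ∩ f ⁻¹' {t}) γ).Nonempty := by
  induction γ using WellFoundedLT.induction with
  | ind γ ih =>
  intro hγ L hL ε hε
  -- one step, with disjointness
  have step : ∀ p < γ, ∀ L : Set K, IsClosed L → ∀ ε : ℝ≥0∞, ε ≠ 0 →
      ∃ N : Set K, IsClosed N ∧ ∃ D : Set K, D.Countable ∧ closure D ⊆ L ∧ N ⊆ L ∧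
        (∀ x ∈ N, x ∉ closure D) ∧ ν (L \ N) ≤ ε ∧
        ∀ t ∈ f '' N, (CB (closure D ∩ f ⁻¹' {t}) p).Nonempty := by
    intro p hp L hL ε hε
    have hp' : p.card ≤ Cardinal.aleph0 := (Ordinal.card_le_card hp.le).trans hγ
    obtain ⟨N0, hN0c, hN0L, hN0, D, hD, hDL, ht⟩ :=
      ih p hp hp' L hL (ε / 2) (ENNReal.half_pos hε).ne'
    have hm : MeasurableSet (N0 \ closure D) :=
      hN0c.measurableSet.diff isClosed_closure.measurableSet
    obtain ⟨N, hNs, hNc, hN⟩ := hm.exists_isClosed_sdiff_lt (measure_ne_top ν _)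
      (ENNReal.half_pos hε).ne'
    refine ⟨N, hNc, D, hD, hDL, fun x hx => hN0L (hNs hx).1, fun x hx => (hNs hx).2, ?_,
      fun t htN => ht t ?_⟩
    · have h1 : L \ N ⊆ (L \ N0) ∪ (((N0 \ closure D) \ N) ∪ closure D) := by
        intro x hx
        by_cases h0 : x ∈ N0
        · by_cases h2 : x ∈ closure D
          · exact Or.inr (Or.inr h2)
          · exact Or.inr (Or.inl ⟨⟨h0, h2⟩, hx.2⟩)
        · exact Or.inl ⟨hx.1, h0⟩
      calc ν (L \ N) ≤ ν (L \ N0) + (ν ((N0 \ closure D) \ N) + ν (closure D)) :=
            (measure_mono h1).trans ((measure_union_le _ _).trans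
              (add_le_add le_rfl (measure_union_le _ _)))
        _ ≤ ε / 2 + (ε / 2 + 0) := add_le_add hN0 (add_le_add hN.le (hν D hD).le)
        _ = ε := by rw [add_zero, ENNReal.add_halves]
    · obtain ⟨x, hx, rfl⟩ := htN
      exact ⟨x, (hNs hx).1, rfl⟩
  rcases eq_or_ne γ 0 with rfl | hγ0
  · obtain ⟨D, hD, hDL, hDf⟩ := base hf hL
    refine ⟨L, hL, Subset.rfl, by simp, D, hD, hDL, fun t ht => ?_⟩
    obtain ⟨x, hx, rfl⟩ := hDf ht
    refine ⟨x, ?_⟩
    rw [mem_CB]
    exact ⟨⟨hx, rfl⟩, fun p hp => absurd hp not_lt_zero⟩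
  -- an enumeration of the smaller ordinals in which each occurs infinitely often
  have hγpos : 0 < γ := bot_lt_iff_ne_bot.2 hγ0
  have hne : Nonempty (Set.Iio γ) := ⟨⟨0, hγpos⟩⟩
  have hcount : Countable (Set.Iio γ) := by
    rw [← Cardinal.mk_le_aleph0_iff, Cardinal.mk_Iio_ordinal]
    exact Cardinal.lift_le_aleph0.2 hγ
  obtain ⟨e, he⟩ := exists_surjective_nat (Set.Iio γ)
  let p : ℕ → Set.Iio γ := fun n => e n.unpair.1
  have hpinf : ∀ q : Set.Iio γ, {n | p n = q}.Infinite := by
    intro q
    obtain ⟨a, ha⟩ := he q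
    refine Set.infinite_of_injective_forall_mem (f := fun b : ℕ => Nat.pair a b) ?_ ?_
    · intro b c hbc
      have := congrArg Nat.unpair hbc
      simpa using this
    · intro b
      simp [p, ha]
  obtain ⟨ε', hε'pos, hε'⟩ := ENNReal.exists_pos_sum_of_countable' hε ℕ
  have hchoice : ∀ (n : ℕ) (L : {L : Set K // IsClosed L}), ∃ N : {L : Set K // IsClosed L},
      ∃ D : Set K, D.Countable ∧ closure D ⊆ L.1 ∧ N.1 ⊆ L.1 ∧ (∀ x ∈ N.1, x ∉ closure D) ∧
        ν (L.1 \ N.1) ≤ ε' n ∧
        ∀ t ∈ f '' N.1, (CB (closure D ∩ f ⁻¹' {t}) (p n).1).Nonempty := by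
    intro n L
    obtain ⟨N, hN, D, h⟩ := step (p n).1 (p n).2 L.1 L.2 (ε' n) (hε'pos n).ne'
    exact ⟨⟨N, hN⟩, D, h⟩
  choose N D hDc hDL hNL hdisj hNε hNt using hchoice
  let F : ℕ → {L : Set K // IsClosed L} := fun n => Nat.rec ⟨L, hL⟩ (fun n L => N n L) n
  have hF0 : (F 0).1 = L := rfl
  have hFs : ∀ n, F (n + 1) = N n (F n) := fun n => rfl
  have hanti : Antitone fun n => (F n).1 := antitone_nat_of_succ_le fun n => by
    rw [hFs]
    exact hNL n (F n)
  let D' : Set K := ⋃ n, D n (F n)
  have hD'n : ∀ n, closure (D n (F n)) ⊆ closure D' := fun n =>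
    closure_mono (subset_iUnion (fun n => D n (F n)) n)
  refine ⟨⋂ n, (F n).1, isClosed_iInter fun n => (F n).2, fun x hx => mem_iInter.1 hx 0, ?_,
    D', countable_iUnion fun n => hDc n (F n), ?_, ?_⟩
  · have h1 : L \ ⋂ n, (F n).1 ⊆ ⋃ n, ((F n).1 \ (F (n + 1)).1) := by
      intro x hx
      by_contra hcon
      apply hx.2
      rw [mem_iInter]
      intro n
      induction n with
      | zero => exact hx.1
      | succ n ihn =>
        by_contra h
        exact hcon (mem_iUnion.2 ⟨n, ihn, h⟩)
    calc ν (L \ ⋂ n, (F n).1) ≤ ν (⋃ n, ((F n).1 \ (F (n + 1)).1)) := measure_mono h1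
      _ ≤ ∑' n, ν ((F n).1 \ (F (n + 1)).1) := measure_iUnion_le _
      _ ≤ ∑' n, ε' n := ENNReal.tsum_le_tsum fun n => by
          rw [hFs]
          exact hNε n (F n)
      _ ≤ ε := hε'.le
  · refine closure_minimal (iUnion_subset fun n => ?_) hL
    exact subset_closure.trans ((hDL n (F n)).trans (hanti (Nat.zero_le n)))
  · rintro t ⟨x, hx, rfl⟩
    have h1 : ∀ n, (CB (closure (D n (F n)) ∩ f ⁻¹' {f x}) (p n).1).Nonempty := fun n =>
      hNt n (F n) (f x) ⟨x, by
        rw [← hFs]
        exact mem_iInter.1 hx (n + 1), rfl⟩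
    choose z hz using h1
    have hzA : ∀ n, z n ∈ closure (D n (F n)) := fun n => (mem_CB.1 (hz n)).1.1
    have hinj : Function.Injective z := by
      intro m n hmn
      by_contra hne'
      wlog hlt : m < n generalizing m n
      · exact this hmn.symm (Ne.symm hne') (lt_of_le_of_ne (not_lt.1 hlt) (Ne.symm hne'))
      have h2 : z n ∈ (F (m + 1)).1 := hanti (Nat.succ_le_of_lt hlt) (hDL n (F n) (hzA n))
      rw [hFs] at h2
      exact hdisj m (F m) (z n) h2 (hmn ▸ hzA m)
    set A : Set K := closure D' ∩ f ⁻¹' {f x} with hA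
    have hAc : IsClosed A := isClosed_closure.inter (isClosed_singleton.preimage hf)
    have hzCB : ∀ n, z n ∈ CB A (p n).1 := fun n =>
      CB_mono (inter_subset_inter_left _ (hD'n n)) _ (hz n)
    let R : Set.Iio γ → Set K := fun q => A ∩ derivedSet (CB A q.1)
    have hRc : ∀ q, IsClosed (R q) := fun q => hAc.inter (isClosed_derivedSet _)
    have hRne : ∀ q, (R q).Nonempty := by
      intro q
      have h3 : (z '' {n | p n = q}).Infinite := (hpinf q).image hinj.injOn
      have h4 : z '' {n | p n = q} ⊆ CB A q.1 := by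
        rintro _ ⟨n, hn, rfl⟩
        have := hzCB n
        rw [show p n = q from hn] at this
        exact this
      obtain ⟨y, hy, hyacc⟩ := h3.exists_accPt_of_subset_isCompact hAc.isCompact
        (h4.trans fun y hy => (mem_CB.1 hy).1)
      exact ⟨y, hy, hyacc.mono (principal_mono.2 h4)⟩
    have hRdir : Directed (· ⊇ ·) R := by
      intro q r
      rcases le_total q r with h | h
      · exact ⟨r, inter_subset_inter_right _ (derivedSet_mono _ _ (CB_anti h)), Subset.rfl⟩
      · exact ⟨q, Subset.rfl, inter_subset_inter_right _ (derivedSet_mono _ _ (CB_anti h))⟩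
    obtain ⟨y, hy⟩ := IsCompact.nonempty_iInter_of_directed_nonempty_isCompact_isClosed R hRdir
      hRne (fun q => (hRc q).isCompact) hRc
    rw [mem_iInter] at hy
    refine ⟨y, mem_CB.2 ⟨(hy ⟨0, hγpos⟩).1, fun q hq => ?_⟩⟩
    exact (hy ⟨q, hq⟩).2

/-- The complement of a separable closed set of maximal measure. -/
theorem exists_open (μ : Measure K) [IsFiniteMeasure μ]
    (hK : ¬ TopologicalSpace.SeparableSpace K) :
    ∃ O : Set K, IsOpen O ∧ O.Nonempty ∧
      ∀ D : Set K, D.Countable → μ.restrict O (closure D) = 0 := by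
  let S : Set (Set K) := {D | D.Countable}
  obtain ⟨u, -, hu, huS⟩ := exists_seq_tendsto_sSup (S := (fun D => μ (closure D)) '' S)
    ⟨_, ∅, countable_empty, rfl⟩ (OrderTop.bddAbove _)
  choose D hD hDu using huS
  let E : Set K := ⋃ n, D n
  have hE : E.Countable := countable_iUnion hD
  have hmax : ∀ C : Set K, C.Countable → μ (closure C) ≤ μ (closure E) := by
    intro C hC
    refine le_trans (le_sSup (show μ (closure C) ∈ (fun D => μ (closure D)) '' S from
      ⟨C, hC, rfl⟩)) (le_of_tendsto' hu fun n => ?_)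
    rw [← hDu n]
    exact measure_mono (closure_mono (subset_iUnion D n))
  refine ⟨(closure E)ᶜ, isClosed_closure.isOpen_compl, ?_, fun C hC => ?_⟩
  · rw [nonempty_compl]
    intro h
    exact hK ⟨E, hE, dense_iff_closure_eq.2 h⟩
  · rw [Measure.restrict_apply isClosed_closure.measurableSet]
    have h1 := hmax (C ∪ E) (hC.union hE)
    rw [closure_union] at h1
    have h2 : closure C ∪ closure E = closure E ∪ (closure C ∩ (closure E)ᶜ) := by
      ext x
      simp only [mem_union, mem_inter_iff, mem_compl_iff]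
      tauto
    rw [h2, measure_union (disjoint_left.2 fun x hx hx' => hx'.2 hx)
      (isClosed_closure.measurableSet.inter isClosed_closure.measurableSet.compl)] at h1
    by_contra h0
    exact absurd h1 (not_le.2 (ENNReal.lt_add_right (measure_ne_top _ _) h0))

end

/-- Let `K` be a compact Hausdorff space that supports a Radon probability measure `μ` and is not
separable, and let `f` be a continuous map from `K` to a second countable Hausdorff space (for
instance the Cantor space).  Then there is a nonempty open set `O` (of positive measure, therefore)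
such that for every countable ordinal `γ`, for almost all `x ∈ O`, the fibre of `f` through `x` has
a nonempty `γ`-th Cantor-Bendixson derivative. -/
theorem result {K : Type*} [TopologicalSpace K] [CompactSpace K] [T2Space K]
    [MeasurableSpace K] [BorelSpace K] (μ : Measure K) [IsProbabilityMeasure μ]
    [μ.IsOpenPosMeasure] [μ.Regular] (hK : ¬ TopologicalSpace.SeparableSpace K)
    {M : Type*} [TopologicalSpace M] [SecondCountableTopology M] [T2Space M]
    (f : K → M) (hf : Continuous f) :
    ∃ O : Set K, IsOpen O ∧ 0 < μ O ∧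
      ∀ γ : Ordinal.{0}, γ.card ≤ Cardinal.aleph0 →
        ∀ᵐ x ∂μ, x ∈ O → (CB (f ⁻¹' {f x}) γ).Nonempty := by
  obtain ⟨O, hO, hOne, hν⟩ := exists_open μ hK
  refine ⟨O, hO, hO.measure_pos μ hOne, fun γ hγ => ?_⟩
  have : (μ.restrict O).WeaklyRegular :=
    Measure.WeaklyRegular.restrict_of_measure_ne_top (measure_ne_top _ _)
  rw [← ae_restrict_iff'₀ hO.measurableSet.nullMeasurableSet]
  rw [ae_iff]
  refine le_antisymm (ENNReal.le_of_forall_pos_le_add ?_) zero_le
  intro ε hε _
  obtain ⟨N, -, -, hN, D, -, -, ht⟩ := key hν hf γ hγ univ isClosed_univ (ε : ℝ≥0∞)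
    (by exact_mod_cast hε.ne')
  rw [zero_add]
  refine (measure_mono ?_).trans hN
  intro x hx
  refine ⟨mem_univ x, fun hxN => hx ?_⟩
  exact (ht (f x) ⟨x, hxN, rfl⟩).mono (CB_mono inter_subset_right γ)

end Pool.Agent.Results.MP_605315_lc.FibreHeights
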