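import Pool.Agent.P52.Cov.SpaceK
import Pool.Agent.P52.Cov.RecurK
import Pool.Agent.P52.Cov.HeightK

/-!
# The question for spaces of small character or tightness, and `add(N)`, `cov(N)`

The question asks for a compact non-separable space `K` that supports a measure and has a
continuous map to the Cantor space with scattered fibres.  Let `κ` be a regular uncountable
cardinal with `κ ≤ add(N)`, where `N` is the ideal of Lebesgue null sets; for instance `κ = ℵ₁` or
`κ = add(N)`.  We show in ZFC that there is such a `K` with characters of the points less than `κ`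
if and only if `cov(N) ≤ κ`, and the same for several other classes of spaces `K`.

For `κ = ℵ₁` this says that there is such a `K` that is first countable, or countably tight, or
Corson compact, or without caliber `ℵ₁`, or with countable fibres, or with fibres of countable
height, if and only if `cov(N) = ℵ₁`.  For `κ = add(N)` it says that there is such a `K` of
character less than `add(N)` if and only if `add(N) = cov(N)`; so the existence statement of the
question holds if `add(N) = cov(N)`.

From a covering to a space: by recursion on `i < κ` choose closed subsets `F i` of positive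
measure of the Cantor space, disjoint from the first `i` null sets and such that all differences
`F i \ F j` with `j < i` are closed; the step uses that fewer than `κ` null sets of the space of
sequences have a null union.  Let `K` be the support of the image of the measure under
`t ↦ (t, (t ∈ F i)_i)` in `2 ^ (ω + κ)`.  Over a point `t` there are only the points whose
`κ`-part is an initial segment of the small set `{i | t ∈ F i}`.

From a space to a covering: as the fibres are scattered, almost all of `K` is covered by countably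
many closed sets `L` on which the measure is determined by the map (otherwise there is a dyadic
tree of closed sets that are all present over a common point).  On such a set a family of open
sets becomes a family of Borel subsets of the Cantor space, and a random sequence of points of the
Cantor space, outside few null sets, gives a countable set of points of `K` that meets all members
of the family.  For heights of fibres the argument is that of `FibreHeights`.
-/

namespace Pool.Agent.Results.MP_605315_lc.Additivity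

open MeasureTheory Set Topology
open Pool.Agent.Results.MP_605315_lc.FibreHeights (CB)
open Pool.Agent.P52.Cov

/-- There are a space `K`, a measure and a map `f` as in the question (`K` is compact Hausdorff,
not separable, and supports a Radon probability measure, and `f` is a continuous map to the Cantor
space with scattered fibres), with the further property `P K f`. -/
def Example (P : ∀ (K : Type) [TopologicalSpace K], (K → (ℕ → Bool)) → Prop) : Prop :=
  ∃ (K : Type) (_ : TopologicalSpace K) (_ : CompactSpace K) (_ : T2Space K)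
    (_ : MeasurableSpace K) (_ : BorelSpace K) (μ : Measure K),
    IsProbabilityMeasure μ ∧ μ.IsOpenPosMeasure ∧ μ.Regular ∧
    ¬ TopologicalSpace.SeparableSpace K ∧
    ∃ f : K → (ℕ → Bool), Continuous f ∧
      (∀ t : ℕ → Bool, ∀ A : Set K, A ⊆ f ⁻¹' {t} → A.Nonempty →
        ∃ x ∈ A, ∃ U : Set K, IsOpen U ∧ U ∩ A = {x}) ∧ P K f

/-- The hypothesis `hadd` on the regular uncountable cardinal `κ` is `κ ≤ add(N)`; it is always
true for `κ = ℵ₁` and for `κ = add(N)`. -/
theorem result (κ : Cardinal.{0}) (hκ : κ.IsRegular) (h0 : Cardinal.aleph0 < κ)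
    (hadd : ∀ S : Set (Set ℝ), Cardinal.mk S < κ → (∀ A ∈ S, volume A = 0) →
      volume (⋃₀ S) = 0) :
    [ -- density at least `κ`, characters less than `κ`, fibres of size less than `κ`, and points
      -- of support less than `κ` in a power of the line (for `κ = ℵ₁`, `K` is Corson compact)
     Example fun K _ f => (∀ D : Set K, Cardinal.mk D < κ → ¬ Dense D) ∧
      (∀ x : K, ∃ 𝓑 : Set (Set K), Cardinal.mk 𝓑 < κ ∧ (∀ U ∈ 𝓑, U ∈ 𝓝 x) ∧
        ∀ V ∈ 𝓝 x, ∃ U ∈ 𝓑, U ⊆ V) ∧
      (∀ t, Cardinal.mk (f ⁻¹' {t}) < κ) ∧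
      ∃ (Γ : Type) (g : K → Γ → ℝ), Continuous g ∧ Function.Injective g ∧
        ∀ x, Cardinal.mk {γ | g x γ ≠ 0} < κ,
     -- characters of the points less than `κ`
     Example fun K _ _ => ∀ x : K, ∃ 𝓑 : Set (Set K), Cardinal.mk 𝓑 < κ ∧ (∀ U ∈ 𝓑, U ∈ 𝓝 x) ∧
        ∀ V ∈ 𝓝 x, ∃ U ∈ 𝓑, U ⊆ V,
     -- density at least `κ` and tightness less than `κ`
     Example fun K _ _ => (∀ D : Set K, Cardinal.mk D < κ → ¬ Dense D) ∧
      ∀ A : Set K, ∀ x ∈ closure A, ∃ C ⊆ A, Cardinal.mk C < κ ∧ x ∈ closure C,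
     -- `κ` is not a caliber
     Example fun K _ _ => ∃ (ι : Type) (B : ι → Set K), Cardinal.mk ι = κ ∧ (∀ i, IsOpen (B i)) ∧
      (∀ i, (B i).Nonempty) ∧ ∀ x, Cardinal.mk {i | x ∈ B i} < κ,
     -- fibres of size less than `κ`
     Example fun _ _ f => ∀ t, Cardinal.mk (f ⁻¹' {t}) < κ,
     -- density at least `κ` and fibres of height less than `κ`
     Example fun K _ f => (∀ D : Set K, Cardinal.mk D < κ → ¬ Dense D) ∧
      ∀ t, ∃ γ : Ordinal.{0}, γ.card < κ ∧ CB (f ⁻¹' {t}) γ = ∅,
     -- `cov(N) ≤ κ`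
     ∃ S : Set (Set ℝ), Cardinal.mk S ≤ κ ∧ (∀ A ∈ S, volume A = 0) ∧ ⋃₀ S = univ].TFAE := by
  have tight : ∀ (K : Type) [TopologicalSpace K], (∀ x : K, ∃ 𝓑 : Set (Set K),
      Cardinal.mk 𝓑 < κ ∧ (∀ U ∈ 𝓑, U ∈ 𝓝 x) ∧ ∀ V ∈ 𝓝 x, ∃ U ∈ 𝓑, U ⊆ V) →
      ∀ A : Set K, ∀ x ∈ closure A, ∃ C ⊆ A, Cardinal.mk C < κ ∧ x ∈ closure C := by
    intro K _ hχ A x hx
    obtain ⟨𝓑, h𝓑, h1, h2⟩ := hχ x
    have h3 : ∀ U : 𝓑, ∃ a ∈ A, a ∈ U.1 := fun U => by
      obtain ⟨a, haU, haA⟩ := mem_closure_iff_nhds.1 hx U.1 (h1 U.1 U.2)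
      exact ⟨a, haA, haU⟩
    choose a haA haU using h3
    refine ⟨range a, ?_, Cardinal.mk_range_le.trans_lt h𝓑, ?_⟩
    · rintro _ ⟨U, rfl⟩
      exact haA U
    · rw [mem_closure_iff_nhds]
      intro V hV
      obtain ⟨U, hU, hUV⟩ := h2 V hV
      exact ⟨a ⟨U, hU⟩, hUV (haU ⟨U, hU⟩), mem_range_self _⟩
  tfae_have 1 → 2 := by
    rintro ⟨K, _, _, _, _, _, μ, h1, h2, h3, h4, f, hf, hs, -, hP, -, -⟩
    exact ⟨K, inferInstance, inferInstance, inferInstance, inferInstance, inferInstance, μ, h1,
      h2, h3, h4, f, hf, hs, hP⟩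
  tfae_have 2 → 7 := by
    rintro ⟨K, _, _, _, _, _, μ, h1, h2, h3, h4, f, hf, hs, hP⟩
    exact cover_of_char hκ h0 (μ := μ) h4 hf hs hP
  tfae_have 1 → 3 := by
    rintro ⟨K, _, _, _, _, _, μ, h1, h2, h3, h4, f, hf, hs, hd, hP, -, -⟩
    exact ⟨K, inferInstance, inferInstance, inferInstance, inferInstance, inferInstance, μ, h1,
      h2, h3, h4, f, hf, hs, hd, tight K hP⟩
  tfae_have 3 → 4 := by
    rintro ⟨K, _, _, _, _, _, μ, h1, h2, h3, h4, f, hf, hs, hd, ht⟩
    obtain ⟨B, hB, hBne, hBx⟩ := exists_family_of_tight_small hκ h0 hd ht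
    refine ⟨K, inferInstance, inferInstance, inferInstance, inferInstance, inferInstance, μ, h1,
      h2, h3, h4, f, hf, hs, κ.ord.ToType, B, by rw [Cardinal.mk_toType, Cardinal.card_ord], hB,
      hBne, fun x => ?_⟩
    obtain ⟨β, hβ⟩ := hBx x
    exact (Cardinal.mk_le_mk_of_subset hβ).trans_lt (mk_Iic_lt_ord h0 β)
  tfae_have 4 → 7 := by
    rintro ⟨K, _, _, _, _, _, μ, h1, h2, h3, h4, f, hf, hs, ι, B, hι, hB, hBne, hBx⟩
    by_contra hno
    obtain ⟨E, hE, hEB⟩ := exists_countable_meet (μ := μ) hf hs B hB hBne h0.le hι.le hno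
    have h5 : Cardinal.mk (⋃ e : E, {i | e.1 ∈ B i} : Set ι) < κ :=
      (Cardinal.card_iUnion_lt_iff_forall_of_isRegular hκ
        ((Cardinal.le_aleph0_iff_set_countable.2 hE).trans_lt h0)).2 fun e => hBx e.1
    have h6 : (⋃ e : E, {i | e.1 ∈ B i} : Set ι) = univ := eq_univ_of_forall fun i => by
      obtain ⟨e, heE, heB⟩ := hEB i
      exact mem_iUnion.2 ⟨⟨e, heE⟩, heB⟩
    rw [h6, Cardinal.mk_univ, hι] at h5
    exact lt_irrefl _ h5
  tfae_have 1 → 5 := by
    rintro ⟨K, _, _, _, _, _, μ, h1, h2, h3, h4, f, hf, hs, -, -, hP, -⟩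
    exact ⟨K, inferInstance, inferInstance, inferInstance, inferInstance, inferInstance, μ, h1,
      h2, h3, h4, f, hf, hs, hP⟩
  tfae_have 5 → 2 := by
    rintro ⟨K, _, _, _, _, _, μ, h1, h2, h3, h4, f, hf, hs, hP⟩
    exact ⟨K, inferInstance, inferInstance, inferInstance, inferInstance, inferInstance, μ, h1,
      h2, h3, h4, f, hf, hs, char_of_fibres h0 hf hP⟩
  tfae_have 1 → 6 := by
    rintro ⟨K, _, _, _, _, _, μ, h1, h2, h3, h4, f, hf, hs, hd, -, hP, -⟩
    exact ⟨K, inferInstance, inferInstance, inferInstance, inferInstance, inferInstance, μ, h1,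
      h2, h3, h4, f, hf, hs, hd, fun t => exists_CB_eq_empty_small (hs t) (hP t)⟩
  tfae_have 6 → 7 := by
    rintro ⟨K, _, _, _, _, _, μ, h1, h2, h3, h4, f, hf, hs, hd, hP⟩
    exact cover_of_height hadd hκ h0 (μ := μ) hf hd hP
  tfae_have 7 → 1 := by
    rintro ⟨S, hS, hnull, hcov⟩
    obtain ⟨m, hm, N, hN, hNcov⟩ := exists_cantor_small hS hnull hcov
    obtain ⟨F, hF, hFm, hdiff, hpt⟩ := exists_family_small hadd h0 m N hN hNcov
    obtain ⟨K, _, _, _, _, _, μ, h1, h2, h3, f, hf, hD, ⟨g, hg1, hg2, hg3⟩, hs, hcard⟩ :=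
      exists_space_gen m F hF hFm hdiff
    have hsmall : ∀ t, Cardinal.mk {i | t ∈ F i} < κ := fun t => by
      obtain ⟨i, hi⟩ := hpt t
      exact (Cardinal.mk_le_mk_of_subset hi).trans_lt (mk_Iio_lt_ord i)
    have hfib : ∀ t, Cardinal.mk (f ⁻¹' {t}) < κ := fun t => by
      refine (hcard t).trans_lt ?_
      rw [Cardinal.mk_option]
      exact Cardinal.add_lt_of_lt h0.le (hsmall t) (Cardinal.one_lt_aleph0.trans h0)
    have hd : ∀ D : Set K, Cardinal.mk D < κ → ¬ Dense D := by
      intro D hDc hDd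
      choose b hb using hpt
      obtain ⟨β, hβ⟩ := exists_upper_small hκ hDc fun d : D => b (f d.1)
      obtain ⟨d, hdD, hdF⟩ := hD D hDd β
      have h4 : β < b (f d) := hb (f d) hdF
      exact absurd (hβ ⟨d, hdD⟩) (not_le.2 h4)
    have hsep : ¬ TopologicalSpace.SeparableSpace K := by
      rintro ⟨D, hD, hDd⟩
      exact hd D ((Cardinal.le_aleph0_iff_set_countable.2 hD).trans_lt h0) hDd
    refine ⟨K, inferInstance, inferInstance, inferInstance, inferInstance, inferInstance, μ, h1,
      h2, h3, hsep, f, hf, hs, hd, char_of_fibres h0 hf hfib, hfib, _, g, hg1, hg2, fun x => ?_⟩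
    refine (Cardinal.mk_le_mk_of_subset (hg3 x)).trans_lt ((Cardinal.mk_union_le _ _).trans_lt
      (Cardinal.add_lt_of_lt h0.le ?_ ?_))
    · exact (Cardinal.mk_range_le.trans Cardinal.mk_nat.le).trans_lt h0
    · exact Cardinal.mk_image_le.trans_lt (hsmall (f x))
  tfae_finish

end Pool.Agent.Results.MP_605315_lc.Additivity
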