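import Pool.Agent.P9.Fib.Final

/-!
# Non-separable measure-supporting compacta with scattered fibres and functions with null graphs

If there is a compact space as in Q1 of MP_605315_lc, then there is a function from the reals to
the reals which is not continuous on any set of positive outer Lebesgue measure.  By a theorem of
Rosłanowski and Shelah the existence of such a function is not provable in ZFC.
-/

namespace Pool.Agent.Results.MP_605315_lc.ScatteredFibres

open MeasureTheory Set

/-- Let `K` be a compact Hausdorff space supporting a Radon probability measure and admitting a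
continuous map to the Cantor space all of whose fibres are scattered.  If `K` is not separable,
then there is a function `a : ℝ → ℝ` such that

* the graph of `a` is null for every Borel probability measure on the plane whose first marginal
  is absolutely continuous (with respect to Lebesgue measure);
* `a` agrees with no measurable function on a set of positive outer measure;
* `a` is not continuous on any set of positive outer measure;
* for every set `S` of reals that meets every null set in a countable set (Sierpinski set), the
  graph of `a` over `S`, a set of the cardinality of `S`, is null for every non-atomic Borel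
  probability measure on the plane. -/
theorem result {K : Type*} [TopologicalSpace K] [CompactSpace K] [T2Space K]
    [MeasurableSpace K] [BorelSpace K] (μ : Measure K) [IsProbabilityMeasure μ]
    [μ.IsOpenPosMeasure] [μ.Regular] (hK : ¬ TopologicalSpace.SeparableSpace K)
    (f : K → (ℕ → Bool)) (hf : Continuous f)
    (hscattered : ∀ t : ℕ → Bool, ∀ A : Set K, A ⊆ f ⁻¹' {t} → A.Nonempty →
      ∃ x ∈ A, ∃ U : Set K, IsOpen U ∧ U ∩ A = {x}) :
    ∃ a : ℝ → ℝ,
      (∀ m : Measure (ℝ × ℝ), IsProbabilityMeasure m → m.map Prod.fst ≪ volume →
        m {q | q.2 = a q.1} = 0) ∧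
      (∀ g : ℝ → ℝ, Measurable g → volume {x | a x = g x} = 0) ∧
      (∀ A : Set ℝ, ContinuousOn a A → volume A = 0) ∧
      (∀ S : Set ℝ, (∀ N : Set ℝ, volume N = 0 → (S ∩ N).Countable) →
        ∀ m : Measure (ℝ × ℝ), IsProbabilityMeasure m → (∀ q, m {q} = 0) →
          m {q | q.1 ∈ S ∧ q.2 = a q.1} = 0) := by
  have h1 : ∃ a : ℝ → ℝ, ¬ Pool.Agent.P9.Fib.GraphNonNull a := by
    by_contra h
    push Not at h
    exact hK (Pool.Agent.P9.Fib.separable μ h hf hscattered)
  obtain ⟨a, ha⟩ := h1
  have h2 : ∀ g : ℝ → ℝ, Measurable g → volume {x | a x = g x} = 0 := by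
    intro g hg
    by_contra h
    exact ha (Pool.Agent.P9.Fib.graphNonNull_of_measurable hg h)
  refine ⟨a, fun m hm hac => ?_, h2, fun A hA => ?_, fun S hS m hm hm0 => ?_⟩
  · by_contra h
    exact ha ⟨m, hm, hac, h⟩
  · obtain ⟨g, hg, hag⟩ := Pool.Agent.P9.Fib.exists_measurable_eqOn hA
    exact measure_mono_null (fun x hx => hag x hx) (h2 g hg)
  · by_contra h
    have : NullSingletonClass m := ⟨hm0⟩
    exact ha (Pool.Agent.P9.Fib.graphNonNull_of_sierpinski hS h)

end Pool.Agent.Results.MP_605315_lc.ScatteredFibres
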